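import Mathlib

set_option autoImplicit false

namespace Pool.Agent.Lib.MP_93e4b7_co

open Matrix

/-- If P and P' intertwine A and B up to column operations and are inverse to each other modulo
the column lattices, the cokernels of A and B are isomorphic. -/
theorem cokerIso {n : Type*} [Fintype n] [DecidableEq n] (A B P P' Q Q' X Y : Matrix n n ℤ)
    (h1 : P * A = B * Q) (h2 : P' * B = A * Q') (h3 : P' * P = 1 + A * X)
    (h4 : P * P' = 1 + B * Y) :
    Nonempty (((n → ℤ) ⧸ LinearMap.range A.mulVecLin) ≃ₗ[ℤ]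
      ((n → ℤ) ⧸ LinearMap.range B.mulVecLin)) := by
  have hf : LinearMap.range A.mulVecLin ≤
      (LinearMap.range B.mulVecLin).comap P.mulVecLin := by
    rintro _ ⟨x, rfl⟩
    refine ⟨Q *ᵥ x, ?_⟩
    simp only [Matrix.mulVecLin_apply, Matrix.mulVec_mulVec, h1]
  have hg : LinearMap.range B.mulVecLin ≤
      (LinearMap.range A.mulVecLin).comap P'.mulVecLin := by
    rintro _ ⟨x, rfl⟩
    refine ⟨Q' *ᵥ x, ?_⟩
    simp only [Matrix.mulVecLin_apply, Matrix.mulVec_mulVec, h2]
  refine ⟨LinearEquiv.ofLinearMap (Submodule.mapQ _ _ P.mulVecLin hf)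
    (Submodule.mapQ _ _ P'.mulVecLin hg) ?_ ?_⟩
  · apply Submodule.linearMap_qext
    ext1 x
    apply LinearMap.ext
    intro y
    simp only [LinearMap.comp_apply, Submodule.mkQ_apply, Submodule.mapQ_apply,
      LinearMap.id_apply, Matrix.mulVecLin_apply, Matrix.mulVec_mulVec, h4]
    rw [Submodule.Quotient.eq]
    refine ⟨Y *ᵥ (LinearMap.single ℤ (fun _ => ℤ) x y), ?_⟩
    simp only [Matrix.mulVecLin_apply, Matrix.mulVec_mulVec, Matrix.add_mulVec, Matrix.one_mulVec]
    abel
  · apply Submodule.linearMap_qext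
    ext1 x
    apply LinearMap.ext
    intro y
    simp only [LinearMap.comp_apply, Submodule.mkQ_apply, Submodule.mapQ_apply,
      LinearMap.id_apply, Matrix.mulVecLin_apply, Matrix.mulVec_mulVec, h3]
    rw [Submodule.Quotient.eq]
    refine ⟨X *ᵥ (LinearMap.single ℤ (fun _ => ℤ) x y), ?_⟩
    simp only [Matrix.mulVecLin_apply, Matrix.mulVec_mulVec, Matrix.add_mulVec, Matrix.one_mulVec]
    abel

/-- Reindexing does not change the cokernel. -/
theorem cokerReindex {m n : Type*} [Fintype m] [Fintype n] [DecidableEq m] [DecidableEq n]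
    (e : m ≃ n) (A : Matrix m m ℤ) (B : Matrix n n ℤ) (h : ∀ i j, B (e i) (e j) = A i j) :
    Nonempty (((m → ℤ) ⧸ LinearMap.range A.mulVecLin) ≃ₗ[ℤ]
      ((n → ℤ) ⧸ LinearMap.range B.mulVecLin)) := by
  have key : ∀ x : m → ℤ, B *ᵥ (x ∘ e.symm) = (A *ᵥ x) ∘ e.symm := by
    intro x
    funext j
    simp only [Matrix.mulVec, dotProduct, Function.comp_apply]
    rw [← Equiv.sum_comp e]
    apply Finset.sum_congr rfl
    intro i _
    rw [← h]
    simp
  refine ⟨Submodule.Quotient.equiv _ _ (LinearEquiv.funCongrLeft ℤ ℤ e.symm) ?_⟩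
  ext y
  constructor
  · rintro ⟨_, ⟨x, rfl⟩, rfl⟩
    refine ⟨x ∘ e.symm, ?_⟩
    simp only [Matrix.mulVecLin_apply, key]
    rfl
  · rintro ⟨x, rfl⟩
    refine ⟨A *ᵥ (x ∘ e), ⟨x ∘ e, rfl⟩, ?_⟩
    have := key (x ∘ e)
    simp only [Matrix.mulVecLin_apply]
    have h2 : (x ∘ e) ∘ e.symm = x := by
      funext j
      simp
    rw [h2] at this
    rw [this]
    rfl

/-- A linear equivalence restricts to the torsion subgroups. -/
theorem torsionIso {M N : Type*} [AddCommGroup M] [AddCommGroup N]
    (h : Nonempty (M ≃ₗ[ℤ] N)) :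
    Nonempty (Submodule.torsion ℤ M ≃+ Submodule.torsion ℤ N) := by
  obtain ⟨f⟩ := h
  have hmap : (Submodule.torsion ℤ M).map (f : M →ₗ[ℤ] N) = Submodule.torsion ℤ N := by
    ext y
    constructor
    · rintro ⟨x, hx, rfl⟩
      obtain ⟨a, ha⟩ := (Submodule.mem_torsion_iff x).1 hx
      refine (Submodule.mem_torsion_iff _).2 ⟨a, ?_⟩
      have : f (a • x) = a • f x := by
        exact map_zsmul f (a : ℤ) x
      change a • f x = 0
      rw [← this, ha, map_zero]
    · intro hy
      obtain ⟨a, ha⟩ := (Submodule.mem_torsion_iff y).1 hy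
      refine ⟨f.symm y, ?_, by simp⟩
      refine (Submodule.mem_torsion_iff _).2 ⟨a, ?_⟩
      have : f.symm (a • y) = a • f.symm y := map_zsmul f.symm (a : ℤ) y
      rw [← this, ha, map_zero]
  exact ⟨((f.submoduleMap (Submodule.torsion ℤ M)).trans
    (LinearEquiv.ofEq _ _ hmap)).toAddEquiv⟩

/-- An additive equivalence restricts to the torsion subgroups. -/
theorem torsionIso' {M N : Type*} [AddCommGroup M] [AddCommGroup N] (f : M ≃+ N) :
    Nonempty (AddCommGroup.torsion M ≃+ AddCommGroup.torsion N) := by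
  have hmap : (AddCommGroup.torsion M).map (f : M →+ N) = AddCommGroup.torsion N := by
    ext y
    constructor
    · rintro ⟨x, hx, rfl⟩
      exact AddMonoidHom.isOfFinAddOrder (f : M →+ N) hx
    · intro hy
      refine ⟨f.symm y, ?_, by simp⟩
      exact AddMonoidHom.isOfFinAddOrder (f.symm : N →+ M) hy
  exact ⟨(f.addSubgroupMap (AddCommGroup.torsion M)).trans (AddEquiv.addSubgroupCongr hmap)⟩

/-- Dot product of integer lists. -/
def dot : List ℤ → List ℤ → ℤ
  | [], _ => 0
  | _ :: _, [] => 0
  | a :: as, b :: bs => a * b + dot as bs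

theorem dot_nil_left (b : List ℤ) : dot [] b = 0 := by cases b <;> rfl

theorem dot_eq : ∀ (n : ℕ) (a b : List ℤ), a.length ≤ n →
    dot a b = ∑ k : Fin n, a.getD k 0 * b.getD k 0 := by
  intro n
  induction n with
  | zero =>
    intro a b h
    have : a = [] := List.eq_nil_of_length_eq_zero (Nat.le_zero.1 h)
    subst this
    simp [dot_nil_left]
  | succ n ih =>
    intro a b h
    cases a with
    | nil => simp [dot_nil_left]
    | cons x xs =>
      cases b with
      | nil => simp [dot]
      | cons y ys =>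
        rw [Fin.sum_univ_succ]
        have h2 : xs.length ≤ n := by simpa using h
        simp only [dot, Fin.val_zero, Fin.val_succ, List.getD_cons_zero, List.getD_cons_succ]
        rw [ih xs ys h2]

/-- The matrix with the given rows. -/
def toMat (n : ℕ) (A : List (List ℤ)) : Matrix (Fin n) (Fin n) ℤ :=
  fun i j => (A.getD i []).getD j 0

/-- Product of the matrix with rows A and the matrix with columns B. -/
def mulM (A B : List (List ℤ)) : List (List ℤ) := A.map fun r => B.map fun c => dot r c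

theorem toMat_mulM (n : ℕ) (A B : List (List ℤ)) (hA : A.length = n) (hB : B.length = n)
    (hr : ∀ r ∈ A, r.length ≤ n) :
    toMat n (mulM A B) = toMat n A * (toMat n B)ᵀ := by
  ext i j
  rw [Matrix.mul_apply]
  have hi : (i : ℕ) < A.length := by rw [hA]; exact i.2
  have hj : (j : ℕ) < B.length := by rw [hB]; exact j.2
  have h0 : (mulM A B).getD i [] = B.map fun c => dot A[(i : ℕ)] c := by
    rw [List.getD_eq_getElem (mulM A B) [] (by simpa [mulM] using hi)]
    simp [mulM]
  have h1 : toMat n (mulM A B) i j = dot A[(i : ℕ)] B[(j : ℕ)] := by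
    unfold toMat
    rw [h0, List.getD_eq_getElem (B.map fun c => dot A[(i : ℕ)] c) 0 (by simpa using hj)]
    simp
  rw [h1, dot_eq n _ _ (hr _ (List.getElem_mem hi))]
  apply Finset.sum_congr rfl
  intro k _
  simp only [toMat, Matrix.transpose_apply]
  rw [List.getD_eq_getElem _ _ hi, List.getD_eq_getElem _ _ hj]

/-- Entrywise sum of two lists of rows. -/
def addM (A B : List (List ℤ)) : List (List ℤ) :=
  List.zipWith (fun r s => List.zipWith (fun x y => x + y) r s) A B

theorem toMat_addM (n : ℕ) (A B : List (List ℤ)) (hA : A.length = n) (hB : B.length = n)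
    (hr : ∀ r ∈ A, r.length = n) (hs : ∀ r ∈ B, r.length = n) :
    toMat n (addM A B) = toMat n A + toMat n B := by
  ext i j
  have hi : (i : ℕ) < A.length := by rw [hA]; exact i.2
  have hi' : (i : ℕ) < B.length := by rw [hB]; exact i.2
  have hj : (j : ℕ) < A[(i : ℕ)].length := by
    rw [hr _ (List.getElem_mem hi)]; exact j.2
  have hj' : (j : ℕ) < B[(i : ℕ)].length := by
    rw [hs _ (List.getElem_mem hi')]; exact j.2
  have h0 : (addM A B).getD i [] =
      List.zipWith (fun x y => x + y) A[(i : ℕ)] B[(i : ℕ)] := by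
    rw [List.getD_eq_getElem (addM A B) [] (by simp only [addM, List.length_zipWith]; omega)]
    simp [addM]
  simp only [Matrix.add_apply]
  unfold toMat
  rw [h0, List.getD_eq_getElem _ 0 (by simp only [List.length_zipWith]; omega),
    List.getD_eq_getElem A [] hi, List.getD_eq_getElem B [] hi',
    List.getD_eq_getElem _ 0 hj, List.getD_eq_getElem _ 0 hj']
  simp

/-- Base 64 digits of a natural number, each shifted by 32. -/
def digits : ℕ → ℕ → List ℤ
  | 0, _ => []
  | k + 1, x => (Int.ofNat (x % 64) - 32) :: digits k (x / 64)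

/-- Decode a list of rows. -/
def decode (n : ℕ) (rows : List ℕ) : List (List ℤ) := rows.map (digits n)

/-- Check that a list of rows is an n by n array. -/
def isSq (n : ℕ) (A : List (List ℤ)) : Bool :=
  decide (A.length = n) && A.all fun r => decide (r.length = n)

theorem isSq_spec {n : ℕ} {A : List (List ℤ)} (h : isSq n A = true) :
    A.length = n ∧ ∀ r ∈ A, r.length = n := by
  simpa [isSq] using h

/-- Identity matrix as a list of rows. -/
def idL (n : ℕ) : List (List ℤ) :=
  (List.range n).map fun i => (List.range n).map fun j => if i = j then 1 else 0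

theorem toMat_idL (n : ℕ) : toMat n (idL n) = 1 := by
  ext i j
  have hi : (i : ℕ) < (idL n).length := by simp [idL]
  have h0 : (idL n).getD i [] = (List.range n).map fun j => if (i : ℕ) = j then 1 else 0 := by
    rw [List.getD_eq_getElem (idL n) [] hi]
    simp [idL]
  unfold toMat
  rw [h0, List.getD_eq_getElem _ 0 (by simp)]
  simp [Matrix.one_apply, Fin.ext_iff]

/-- Transpose of a list of rows. -/
def trL (n : ℕ) (A : List (List ℤ)) : List (List ℤ) :=
  (List.range n).map fun i => A.map fun r => r.getD i 0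

theorem toMat_trL (n : ℕ) (A : List (List ℤ)) (hA : A.length = n) :
    toMat n (trL n A) = (toMat n A)ᵀ := by
  ext i j
  have hi : (i : ℕ) < (trL n A).length := by simp [trL]
  have hj : (j : ℕ) < A.length := by rw [hA]; exact j.2
  have h0 : (trL n A).getD i [] = A.map fun r => r.getD i 0 := by
    rw [List.getD_eq_getElem (trL n A) [] hi]
    simp [trL]
  simp only [Matrix.transpose_apply]
  unfold toMat
  rw [h0, List.getD_eq_getElem _ 0 (by simpa using hj), List.getD_eq_getElem A [] hj]
  simp

theorem trL_isSq {n : ℕ} {A : List (List ℤ)} (h : isSq n A = true) : isSq n (trL n A) = true := by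
  obtain ⟨h1, _⟩ := isSq_spec h
  simp [isSq, trL, h1]

/-- The product of two square lists of rows. -/
theorem toMat_mulM' {n : ℕ} {A B : List (List ℤ)} (hA : isSq n A = true) (hB : isSq n B = true) :
    toMat n (mulM A (trL n B)) = toMat n A * toMat n B := by
  rw [toMat_mulM n A (trL n B) (isSq_spec hA).1 (isSq_spec (trL_isSq hB)).1
    (fun r hr => le_of_eq ((isSq_spec hA).2 r hr)), toMat_trL n B (isSq_spec hB).1,
    Matrix.transpose_transpose]

theorem mulM_isSq {n : ℕ} {A B : List (List ℤ)} (hA : isSq n A = true) (hB : isSq n B = true) :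
    isSq n (mulM A B) = true := by
  obtain ⟨h1, _⟩ := isSq_spec hA
  obtain ⟨h2, _⟩ := isSq_spec hB
  simp [isSq, mulM, h1, h2]

theorem idL_isSq (n : ℕ) : isSq n (idL n) = true := by
  simp [isSq, idL]

theorem cokerIsoList (n : ℕ) (A B P P' Q Q' X Y : List (List ℤ))
    (hA : isSq n A = true) (hB : isSq n B = true) (hP : isSq n P = true)
    (hP' : isSq n P' = true) (hQ : isSq n Q = true) (hQ' : isSq n Q' = true)
    (hX : isSq n X = true) (hY : isSq n Y = true)
    (h1 : mulM P (trL n A) = mulM B (trL n Q)) (h2 : mulM P' (trL n B) = mulM A (trL n Q'))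
    (h3 : mulM P' (trL n P) = addM (idL n) (mulM A (trL n X)))
    (h4 : mulM P (trL n P') = addM (idL n) (mulM B (trL n Y))) :
    Nonempty (((Fin n → ℤ) ⧸ LinearMap.range (toMat n A).mulVecLin) ≃ₗ[ℤ]
      ((Fin n → ℤ) ⧸ LinearMap.range (toMat n B).mulVecLin)) := by
  apply cokerIso (toMat n A) (toMat n B) (toMat n P) (toMat n P') (toMat n Q) (toMat n Q')
    (toMat n X) (toMat n Y)
  · rw [← toMat_mulM' hP hA, ← toMat_mulM' hB hQ, h1]
  · rw [← toMat_mulM' hP' hB, ← toMat_mulM' hA hQ', h2]
  · rw [← toMat_mulM' hP' hP, ← toMat_mulM' hA hX, h3, ← toMat_idL]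
    exact toMat_addM n _ _ (isSq_spec (idL_isSq n)).1 (isSq_spec (mulM_isSq hA (trL_isSq hX))).1
      (isSq_spec (idL_isSq n)).2 (isSq_spec (mulM_isSq hA (trL_isSq hX))).2
  · rw [← toMat_mulM' hP hP', ← toMat_mulM' hB hY, h4, ← toMat_idL]
    exact toMat_addM n _ _ (isSq_spec (idL_isSq n)).1 (isSq_spec (mulM_isSq hB (trL_isSq hY))).1
      (isSq_spec (idL_isSq n)).2 (isSq_spec (mulM_isSq hB (trL_isSq hY))).2

end Pool.Agent.Lib.MP_93e4b7_co
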